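import Pool.Agent.H534R3.Red
import Pool.Agent.H534R3.PiThree

/-!
# The numbers normal to all Pisot bases form a complete set of the third multiplicative class

The proof constructs, for an arbitrary countable family of real bases `α i` with `|α i| > 1`, a
continuous map `g` from sequences of naturals to reals such that `g y` is normal to all the bases
`α i` if `y` tends to infinity and `g y` is not normal to the base `α 0` otherwise.
-/

set_option autoImplicit false

open Filter Topology

namespace Pool.Agent.Results.MP_26ac3f_lc.PisotIntersection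

/-- The sequence `x` is uniformly distributed modulo one. -/
def IsUD (x : ℕ → ℝ) : Prop := ∀ s t : ℝ, 0 ≤ s → s ≤ t → t ≤ 1 →
  Tendsto
    (fun N : ℕ =>
      (((Finset.range N).filter (fun n => s ≤ Int.fract (x n) ∧ Int.fract (x n) < t)).card : ℝ)
        / (N : ℝ))
    atTop (nhds (t - s))

/-- The set `N(α)` of the reals `ξ` such that `ξ α ^ n` is uniformly distributed modulo one. -/
def NormalTo (α : ℝ) : Set ℝ := {ξ | IsUD (fun n => ξ * α ^ n)}

/-- `θ` is a Pisot number: a real algebraic integer greater than one all of whose other conjugates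
have absolute value less than one. -/
def IsPisot (θ : ℝ) : Prop :=
  1 < θ ∧ IsIntegral ℤ θ ∧ ∀ z : ℂ, Polynomial.aeval z (minpoly ℚ θ) = 0 → z ≠ (θ : ℂ) → ‖z‖ < 1

/-- The intersection `I` of the sets `N(α)` over all real `α` such that `|α|` is a Pisot number. -/
def PisotNormal : Set ℝ := ⋂ α ∈ {α : ℝ | IsPisot |α|}, NormalTo α

/-- `B` is a countable intersection of countable unions of closed sets. -/
def IsPiThree {X : Type} [TopologicalSpace X] (B : Set X) : Prop :=
  ∃ F : ℕ → ℕ → Set X, (∀ i j, IsClosed (F i j)) ∧ B = ⋂ i, ⋃ j, F i j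

/-- `X` has a base of clopen sets. -/
def IsZeroDimensional (X : Type) [TopologicalSpace X] : Prop :=
  ∃ b : Set (Set X), TopologicalSpace.IsTopologicalBasis b ∧ ∀ s ∈ b, IsClopen s

theorem isPisot_two : IsPisot 2 := by
  refine ⟨by norm_num, ?_, ?_⟩
  · have : IsIntegral ℤ ((algebraMap ℤ ℝ) 2) := isIntegral_algebraMap
    simpa using this
  · intro z hz hz2
    exfalso
    have h1 : minpoly ℚ (2 : ℝ) = Polynomial.X - Polynomial.C (2 : ℚ) := by
      have := minpoly.eq_X_sub_C ℝ (2 : ℚ)
      simpa using this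
    rw [h1] at hz
    simp only [map_sub, Polynomial.aeval_X, Polynomial.aeval_C] at hz
    apply hz2
    rw [sub_eq_zero] at hz
    rw [hz]
    simp

theorem countable_pisot : {α : ℝ | IsPisot |α|}.Countable := by
  have h1 : {x : ℝ | IsAlgebraic ℤ x}.Countable := Algebraic.countable ℤ ℝ
  refine h1.mono fun α hα => ?_
  have h2 : IsAlgebraic ℤ |α| := hα.2.1.isAlgebraic
  change IsAlgebraic ℤ α
  rcases abs_choice α with h | h
  · rwa [h] at h2
  · rw [h] at h2
    have := h2.neg
    rwa [neg_neg] at this

theorem exists_enum : ∃ α : ℕ → ℝ, α 0 = 2 ∧ Set.range α = {α : ℝ | IsPisot |α|} := by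
  have h2 : (2 : ℝ) ∈ {α : ℝ | IsPisot |α|} := by
    change IsPisot |(2 : ℝ)|
    rw [abs_two]
    exact isPisot_two
  obtain ⟨f, hf⟩ := countable_pisot.exists_eq_range ⟨2, h2⟩
  refine ⟨fun n => Nat.casesOn n 2 f, rfl, ?_⟩
  ext x
  constructor
  · rintro ⟨n, rfl⟩
    rcases n with _ | n
    · exact h2
    · rw [hf]
      exact ⟨n, rfl⟩
  · intro hx
    rw [hf] at hx
    obtain ⟨n, rfl⟩ := hx
    exact ⟨n + 1, rfl⟩

theorem exists_inducing (Y : Type) [TopologicalSpace Y] [SecondCountableTopology Y]
    (hY : IsZeroDimensional Y) : ∃ e : Y → ℕ → ℕ, IsInducing e := by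
  classical
  obtain ⟨b, hb, hclopen⟩ := hY
  obtain ⟨b', hb'b, hb'c, hb'⟩ := hb.exists_countable
  rcases isEmpty_or_nonempty Y with hE | hE
  · refine ⟨fun _ _ => 0, ⟨?_⟩⟩
    exact Subsingleton.elim _ _
  · have hne : b'.Nonempty := by
      obtain ⟨y⟩ := hE
      obtain ⟨s, hs, _⟩ := hb'.exists_subset_of_mem_open (Set.mem_univ y) isOpen_univ
      exact ⟨s, hs⟩
    obtain ⟨U, hU⟩ := hb'c.exists_eq_range hne
    have hUc : ∀ n, IsClopen (U n) := fun n => hclopen _ (hb'b (by rw [hU]; exact ⟨n, rfl⟩))
    refine ⟨fun y n => if y ∈ U n then 1 else 0, ?_⟩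
    rw [isInducing_iff_nhds]
    intro y
    refine le_antisymm ?_ ?_
    · rw [← Filter.tendsto_iff_comap, tendsto_pi_nhds]
      intro n
      refine tendsto_const_nhds.congr' ?_
      by_cases hy : y ∈ U n
      · filter_upwards [(hUc n).isOpen.mem_nhds hy] with y' hy'
        rw [if_pos hy, if_pos hy']
      · filter_upwards [(hUc n).compl.isOpen.mem_nhds hy] with y' hy'
        rw [if_neg hy, if_neg hy']
    · intro s hs
      obtain ⟨t, ht, hyt, hts⟩ := hb'.mem_nhds_iff.1 hs
      rw [hU] at ht
      obtain ⟨n, rfl⟩ := ht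
      rw [Filter.mem_comap]
      refine ⟨{v : ℕ → ℕ | v n = 1}, ?_, ?_⟩
      · have h1 : IsOpen {v : ℕ → ℕ | v n = 1} :=
          (isOpen_discrete {1}).preimage (continuous_apply n)
        exact h1.mem_nhds (by simp [hyt])
      · intro y' hy'
        refine hts ?_
        by_contra hcon
        have : (if y' ∈ U n then 1 else 0) = 1 := hy'
        rw [if_neg hcon] at this
        exact zero_ne_one this

/-- The set of the reals that are normal to all bases `α` such that `|α|` is a Pisot number is a
countable intersection of countable unions of closed sets, and every such subset of a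
zero-dimensional Polish space is a continuous preimage of it. -/
theorem result : IsPiThree PisotNormal ∧
    ∀ (Y : Type) [TopologicalSpace Y] [PolishSpace Y], IsZeroDimensional Y →
      ∀ B : Set Y, IsPiThree B → ∃ f : Y → ℝ, Continuous f ∧ B = f ⁻¹' PisotNormal := by
  obtain ⟨α, hα0, hα⟩ := exists_enum
  have hI : PisotNormal = ⋂ i, {ξ : ℝ | Pool.Agent.H534R3.UDist.UD (fun n => ξ * α i ^ n)} := by
    rw [PisotNormal, ← hα, Set.biInter_range]
    rfl
  have hα1 : ∀ i, 1 < |α i| := fun i => by
    have : α i ∈ {α : ℝ | IsPisot |α|} := by rw [← hα]; exact ⟨i, rfl⟩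
    exact this.1
  constructor
  · have h1 := fun i => Pool.Agent.H534R3.UDist.ud_piThree (fun (ξ : ℝ) (n : ℕ) => ξ * α i ^ n)
      (fun n => by fun_prop)
    choose F hF hAF using h1
    refine ⟨fun m j => F (Nat.unpair m).1 (Nat.unpair m).2 j, fun m j => hF _ _ _, ?_⟩
    rw [hI]
    ext ξ
    simp only [hAF, Set.mem_iInter]
    constructor
    · intro h m
      exact h _ _
    · intro h i j
      have := h (Nat.pair i j)
      simpa using this
  · rintro Y _ _ hY B ⟨G, hG, hB⟩
    obtain ⟨e, he⟩ := exists_inducing Y hY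
    obtain ⟨h, hh, hhB⟩ := Pool.Agent.H534R3.UDist.reduce_closed e he G hG
    obtain ⟨g, hg, hg1, hg2⟩ := Pool.Agent.H534R3.UDist.reduce_family α hα1
    refine ⟨fun y => g (h y), hg.comp hh, ?_⟩
    ext y
    rw [Set.mem_preimage, hI, Set.mem_iInter, hB, hhB]
    constructor
    · intro h1 i
      exact hg1 _ h1 i
    · intro h1
      by_contra h2
      exact hg2 _ h2 (h1 0)

end Pool.Agent.Results.MP_26ac3f_lc.PisotIntersection
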