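import Pool.Agent.H534R3.XApp

/-!
# The numbers normal to some Pisot base form a complete set of the fourth additive class

The proof constructs, for an arbitrary countable family of real bases `α i` with `|α i| > 1`, a
continuous map from the Baire space to the reals such that the image of a sequence is normal to the
base `α i` if and only if the part of the sequence that belongs to the class of `α i` tends to
infinity, where two bases are in the same class if the ratio of the logarithms of their absolute
values is rational. The blocks that spoil the normality in one class are chosen by a second moment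
argument with respect to a Riesz density with the frequencies `|α| ^ (k r)`; the correlations of
the powers of another base are averaged along an irrational rotation.
-/

set_option autoImplicit false

open Filter Topology

namespace Pool.Agent.Results.MP_26ac3f_lc.PisotUnion

/-- The sequence `x` is uniformly distributed modulo one. -/
def IsUD (x : ℕ → ℝ) : Prop := ∀ s t : ℝ, 0 ≤ s → s ≤ t → t ≤ 1 →
  Tendsto
    (fun N : ℕ =>
      (((Finset.range N).filter (fun n => s ≤ Int.fract (x n) ∧ Int.fract (x n) < t)).card : ℝ)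
        / (N : ℝ))
    atTop (nhds (t - s))

/-- The set `N(α)` of the reals `ξ` such that `ξ α ^ n` is uniformly distributed modulo one. -/
def NormalTo (α : ℝ) : Set ℝ := {ξ | IsUD (fun n => ξ * α ^ n)}

/-- `θ` is a Pisot number: a real algebraic integer greater than one all of whose other conjugates
have absolute value less than one. -/
def IsPisot (θ : ℝ) : Prop :=
  1 < θ ∧ IsIntegral ℤ θ ∧ ∀ z : ℂ, Polynomial.aeval z (minpoly ℚ θ) = 0 → z ≠ (θ : ℂ) → ‖z‖ < 1

/-- The union `U` of the sets `N(α)` over all real `α` such that `|α|` is a Pisot number. -/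
def PisotUnionSet : Set ℝ := ⋃ α ∈ {α : ℝ | IsPisot |α|}, NormalTo α

/-- `B` is a countable union of countable intersections of countable unions of closed sets. -/
def IsSigmaFour {X : Type} [TopologicalSpace X] (B : Set X) : Prop :=
  ∃ F : ℕ → ℕ → ℕ → Set X, (∀ n i j, IsClosed (F n i j)) ∧ B = ⋃ n, ⋂ i, ⋃ j, F n i j

/-- `X` has a base of clopen sets. -/
def IsZeroDimensional (X : Type) [TopologicalSpace X] : Prop :=
  ∃ b : Set (Set X), TopologicalSpace.IsTopologicalBasis b ∧ ∀ s ∈ b, IsClopen s

theorem isPisot_nat (n : ℕ) (hn : 1 < n) : IsPisot n := by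
  refine ⟨by exact_mod_cast hn, ?_, ?_⟩
  · have : IsIntegral ℤ ((algebraMap ℤ ℝ) n) := isIntegral_algebraMap
    simpa using this
  · intro z hz hz2
    exfalso
    have h1 : minpoly ℚ (n : ℝ) = Polynomial.X - Polynomial.C (n : ℚ) := by
      have := minpoly.eq_X_sub_C ℝ (n : ℚ)
      simpa using this
    rw [h1] at hz
    simp only [map_sub, Polynomial.aeval_X, Polynomial.aeval_C] at hz
    apply hz2
    rw [sub_eq_zero] at hz
    rw [hz]
    simp

theorem countable_pisot : {α : ℝ | IsPisot |α|}.Countable := by
  have h1 : {x : ℝ | IsAlgebraic ℤ x}.Countable := Algebraic.countable ℤ ℝ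
  refine h1.mono fun α hα => ?_
  have h2 : IsAlgebraic ℤ |α| := hα.2.1.isAlgebraic
  change IsAlgebraic ℤ α
  rcases abs_choice α with h | h
  · rwa [h] at h2
  · rw [h] at h2
    have := h2.neg
    rwa [neg_neg] at this

theorem exists_enum : ∃ α : ℕ → ℝ, Set.range α = {α : ℝ | IsPisot |α|} := by
  have h2 : (2 : ℝ) ∈ {α : ℝ | IsPisot |α|} := by
    change IsPisot |(2 : ℝ)|
    rw [abs_two]
    exact_mod_cast isPisot_nat 2 (by norm_num)
  obtain ⟨f, hf⟩ := countable_pisot.exists_eq_range ⟨2, h2⟩
  exact ⟨f, hf.symm⟩

theorem exists_inducing (Y : Type) [TopologicalSpace Y] [SecondCountableTopology Y]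
    (hY : IsZeroDimensional Y) : ∃ e : Y → ℕ → ℕ, IsInducing e := by
  classical
  obtain ⟨b, hb, hclopen⟩ := hY
  obtain ⟨b', hb'b, hb'c, hb'⟩ := hb.exists_countable
  rcases isEmpty_or_nonempty Y with hE | hE
  · refine ⟨fun _ _ => 0, ⟨?_⟩⟩
    exact Subsingleton.elim _ _
  · have hne : b'.Nonempty := by
      obtain ⟨y⟩ := hE
      obtain ⟨s, hs, _⟩ := hb'.exists_subset_of_mem_open (Set.mem_univ y) isOpen_univ
      exact ⟨s, hs⟩
    obtain ⟨U, hU⟩ := hb'c.exists_eq_range hne
    have hUc : ∀ n, IsClopen (U n) := fun n => hclopen _ (hb'b (by rw [hU]; exact ⟨n, rfl⟩))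
    refine ⟨fun y n => if y ∈ U n then 1 else 0, ?_⟩
    rw [isInducing_iff_nhds]
    intro y
    refine le_antisymm ?_ ?_
    · rw [← Filter.tendsto_iff_comap, tendsto_pi_nhds]
      intro n
      refine tendsto_const_nhds.congr' ?_
      by_cases hy : y ∈ U n
      · filter_upwards [(hUc n).isOpen.mem_nhds hy] with y' hy'
        rw [if_pos hy, if_pos hy']
      · filter_upwards [(hUc n).compl.isOpen.mem_nhds hy] with y' hy'
        rw [if_neg hy, if_neg hy']
    · intro s hs
      obtain ⟨t, ht, hyt, hts⟩ := hb'.mem_nhds_iff.1 hs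
      rw [hU] at ht
      obtain ⟨n, rfl⟩ := ht
      rw [Filter.mem_comap]
      refine ⟨{v : ℕ → ℕ | v n = 1}, ?_, ?_⟩
      · have h1 : IsOpen {v : ℕ → ℕ | v n = 1} :=
          (isOpen_discrete {1}).preimage (continuous_apply n)
        exact h1.mem_nhds (by simp [hyt])
      · intro y' hy'
        refine hts ?_
        by_contra hcon
        have : (if y' ∈ U n then 1 else 0) = 1 := hy'
        rw [if_neg hcon] at this
        exact zero_ne_one this

/-- The set of the reals that are normal to some base `α` such that `|α|` is a Pisot number is a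
countable union of countable intersections of countable unions of closed sets, and every such
subset of a zero-dimensional Polish space is a continuous preimage of it. -/
theorem result : IsSigmaFour PisotUnionSet ∧
    ∀ (Y : Type) [TopologicalSpace Y] [PolishSpace Y], IsZeroDimensional Y →
      ∀ B : Set Y, IsSigmaFour B → ∃ f : Y → ℝ, Continuous f ∧ B = f ⁻¹' PisotUnionSet := by
  obtain ⟨α, hα⟩ := exists_enum
  have hU : PisotUnionSet = ⋃ i, {ξ : ℝ | Pool.Agent.H534R3.UDist.UD (fun n => ξ * α i ^ n)} := by
    rw [PisotUnionSet, ← hα, Set.biUnion_range]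
    rfl
  have hα1 : ∀ i, 1 < |α i| := fun i => by
    have : α i ∈ {α : ℝ | IsPisot |α|} := by rw [← hα]; exact ⟨i, rfl⟩
    exact this.1
  constructor
  · have h1 := fun i => Pool.Agent.H534R3.UDist.ud_piThree (fun (ξ : ℝ) (n : ℕ) => ξ * α i ^ n)
      (fun n => by fun_prop)
    choose F hF hAF using h1
    refine ⟨F, hF, ?_⟩
    rw [hU]
    exact Set.iUnion_congr fun i => hAF i
  · rintro Y _ _ hY B ⟨G, hG, hB⟩
    obtain ⟨e, he⟩ := exists_inducing Y hY
    have hred := fun n => Pool.Agent.H534R3.UDist.reduce_closed e he (G n) (hG n)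
    choose h hh hhB using hred
    -- the indices of the primes
    have hP : ∀ m : ℕ, ∃ i, α i = ((Nat.nth Nat.Prime m : ℕ) : ℝ) := by
      intro m
      have h1 : ((Nat.nth Nat.Prime m : ℕ) : ℝ) ∈ Set.range α := by
        rw [hα]
        change IsPisot |((Nat.nth Nat.Prime m : ℕ) : ℝ)|
        rw [Nat.abs_cast]
        exact isPisot_nat _ (Nat.prime_nth_prime m).one_lt
      exact h1
    choose p hp using hP
    have hrel : ∀ m n, m ≠ n → ¬ Pool.Agent.H534R3.Rota.rel α (p m) (p n) := by
      intro m n hmn hr
      apply hr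
      rw [hp, hp, Nat.abs_cast, Nat.abs_cast]
      have hpm := Nat.prime_nth_prime m
      have hpn := Nat.prime_nth_prime n
      have h1 := Pool.Agent.H534R3.Rota.irr_logb (a := Nat.nth Nat.Prime n)
        (b := Nat.nth Nat.Prime m) hpn.one_lt hpm.one_lt (by
          intro u v hu hv huv
          have h2 : Nat.nth Nat.Prime n ∣ Nat.nth Nat.Prime m ^ v := by
            rw [← huv]
            exact dvd_pow_self _ hu.ne'
          have h3 := hpn.dvd_of_dvd_pow h2
          have h4 := (Nat.prime_dvd_prime_iff_eq hpn hpm).1 h3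
          exact hmn (Nat.nth_injective Nat.infinite_setOfPred_prime h4).symm) 1 le_rfl
      rw [pow_one] at h1
      exact h1
    obtain ⟨g, hg, hgW⟩ := Pool.Agent.H534R3.Rota.reduce_union α hα1 p hrel
    refine ⟨fun y => g (fun n => h n y), hg.comp (continuous_pi hh), ?_⟩
    ext y
    rw [hB, Set.mem_iUnion, Set.mem_preimage, hU, Set.mem_iUnion]
    have h1 := hgW (fun n => h n y)
    constructor
    · rintro ⟨n, hn⟩
      exact h1.2 ⟨n, (hhB n y).1 hn⟩
    · intro h2
      obtain ⟨n, hn⟩ := h1.1 h2
      exact ⟨n, (hhB n y).2 hn⟩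

end Pool.Agent.Results.MP_26ac3f_lc.PisotUnion
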